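import Pool.Agent.H223.EM.Defs

set_option autoImplicit false

/-!
T10: mean square of the error term.
-/

namespace Pool.Agent.H303R2.EMT10

open Finset Filter Topology MeasureTheory Complex
open Pool.Agent.H306R2 Pool.Agent.H306R2.SM Pool.Agent.H223.EM

noncomputable section

/-- statement of T6 -/
def S6 : Prop := ∀ (k h m : ℕ) (_ : 1 ≤ k) (_ : 1 ≤ h) (_ : 1 ≤ m) (_ : Nat.Coprime h m)
    (Y : ℝ) (_ : 0 < Y),
    Summable (fun j : ℕ => Dt 0 k h m (-(1 / 4)) Y j) ∧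
    Summable (fun j : ℕ => Dt 1 k h m (-(1 / 4)) Y j) ∧
    SS2 k h m Y = (((k.factorial : ℝ) * Y ^ (k + 1) / m * (Real.log (Y / ((m : ℝ) * h)) + bk k) : ℝ) : ℂ) +
      ((Y ^ k * h / (2 * Real.pi ^ 2) : ℝ) : ℂ) *
        ((∑' j : ℕ, Dt 0 k h m (-(1 / 4)) Y j) + ∑' j : ℕ, Dt 1 k h m (-(1 / 4)) Y j)

/-- statement of T7a -/
def S7a : Prop := ∀ (i : Fin 2) (k : ℕ) (σ σ' x : ℝ) (_ : -(k : ℝ) < σ) (_ : σ < 1)
    (_ : -(k : ℝ) < σ') (_ : σ' < 1) (_ : 0 < x), Kc i k σ x = Kc i k σ' x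

/-- statement of T7b -/
def S7b : Prop := ∀ (B : ℕ), ∃ C : ℝ, ∃ A : ℕ, 0 < C ∧ ∀ (i : Fin 2) (k : ℕ), B + 1 ≤ k → ∀ x : ℝ, 0 < x →
    ‖Kc i k (-(B : ℝ)) x‖ ≤ C * (k : ℝ) ^ A * (k.factorial : ℝ) * x ^ (-(B : ℝ))

/-- statement of T9 -/
def S9 : Prop := ∀ (ε : ℝ) (_ : 0 < ε), ∃ C : ℝ, ∃ A : ℕ, 0 < C ∧ ∀ (i : Fin 2) (k : ℕ), 1 ≤ k →
    ∀ Y : ℝ, 1 ≤ Y → ∀ N J H L : ℕ, 1 ≤ N → 1 ≤ J → 1 ≤ H → 1 ≤ L →
    ∀ a : ℕ → ℝ, (∀ n, |a n| ≤ d2 n) →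
    ∑ h ∈ Ico H (2 * H), ∑ l ∈ (Ico L (2 * L)).filter (fun l => Nat.Coprime h l),
      ‖Hd i k Y N J a h l‖ ^ 2 ≤
      C * (k : ℝ) ^ A * ((H : ℝ) * L * N * J) ^ ε / Y * (1 + (L : ℝ) / H) * ((H : ℝ) ^ 2 + N * J)

lemma hp_mp (h l n : ℕ) (hh : 1 ≤ h) (hl : 1 ≤ l) (hc : Nat.Coprime h l) (hn : 1 ≤ n) :
    1 ≤ hp h n ∧ 1 ≤ mp h l n ∧ Nat.Coprime (hp h n) (mp h l n) ∧
      hp h n * mp h l n ≤ h * l * n := by
  unfold hp mp
  obtain ⟨g, hg⟩ : ∃ g, g = Nat.gcd h n := ⟨_, rfl⟩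
  have hg0 : 0 < Nat.gcd h n := Nat.gcd_pos_of_pos_left n hh
  have h1 : 1 ≤ h / Nat.gcd h n := Nat.div_pos (Nat.le_of_dvd hh (Nat.gcd_dvd_left h n)) hg0
  have h2 : 1 ≤ n / Nat.gcd h n := Nat.div_pos (Nat.le_of_dvd hn (Nat.gcd_dvd_right h n)) hg0
  refine ⟨h1, Nat.mul_pos hl h2, ?_, ?_⟩
  · exact Nat.Coprime.mul_right (Nat.Coprime.coprime_div_left hc (Nat.gcd_dvd_left h n))
      (Nat.coprime_div_gcd_div_gcd hg0)
  · calc h / Nat.gcd h n * (l * (n / Nat.gcd h n)) ≤ h * (l * n) :=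
        Nat.mul_le_mul (Nat.div_le_self _ _) (Nat.mul_le_mul_left _ (Nat.div_le_self _ _))
      _ = h * l * n := by ring

/-- the coefficient of the dual sum -/
def cf (k : ℕ) (Y : ℝ) (h l n : ℕ) : ℝ :=
  Real.sqrt ((mp h l n : ℝ) * hp h n) / (2 * Real.pi ^ 2 * (k.factorial : ℝ) * Y)

lemma tv_sub (h6 : S6) (k : ℕ) (hk : 1 ≤ k) (Y : ℝ) (hY : 0 < Y) (h l n : ℕ) (hh : 1 ≤ h)
    (hl : 1 ≤ l) (hc : Nat.Coprime h l) (hn : 1 ≤ n) :
    Tv k Y h l n - (Mt k Y h l n : ℂ) = (cf k Y h l n : ℂ) *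
      ((∑' j : ℕ, Dt 0 k (hp h n) (mp h l n) (-(1 / 4)) Y j) +
        ∑' j : ℕ, Dt 1 k (hp h n) (mp h l n) (-(1 / 4)) Y j) := by
  obtain ⟨a1, a2, a3, _⟩ := hp_mp h l n hh hl hc hn
  obtain ⟨_, _, h3⟩ := h6 k (hp h n) (mp h l n) hk a1 a2 a3 Y hY
  unfold Tv Mt cf
  rw [h3]
  obtain ⟨Sg, hSg⟩ : ∃ Sg, Sg = (∑' j : ℕ, Dt 0 k (hp h n) (mp h l n) (-(1 / 4)) Y j) +
        ∑' j : ℕ, Dt 1 k (hp h n) (mp h l n) (-(1 / 4)) Y j := ⟨_, rfl⟩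
  rw [← hSg]
  obtain ⟨p, hp'⟩ : ∃ p : ℝ, p = (hp h n : ℝ) := ⟨_, rfl⟩
  obtain ⟨m, hm'⟩ : ∃ m : ℝ, m = (mp h l n : ℝ) := ⟨_, rfl⟩
  rw [← hp', ← hm']
  have hp0 : 0 < p := by rw [hp']; exact_mod_cast a1
  have hm0 : 0 < m := by rw [hm']; exact_mod_cast a2
  have hk0 : (0:ℝ) < (k.factorial : ℝ) := by exact_mod_cast Nat.factorial_pos k
  have hYk : 0 < Y ^ (k + 1) := by positivity
  obtain ⟨Lg, hLg⟩ : ∃ Lg : ℝ, Lg = Real.log (Y / (m * p)) + bk k := ⟨_, rfl⟩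
  have hLg2 : Real.log (Y / (p * m)) + bk k = Lg := by rw [hLg, mul_comm p m]
  rw [← hLg, hLg2]
  have hsp : Real.sqrt p ≠ 0 := (Real.sqrt_pos.2 hp0).ne'
  have hsm : Real.sqrt m ≠ 0 := (Real.sqrt_pos.2 hm0).ne'
  have e1 : Real.sqrt (m / p) * ((k.factorial : ℝ) * Y ^ (k + 1) / m * Lg) /
      ((k.factorial : ℝ) * Y ^ (k + 1)) = Lg / Real.sqrt (p * m) := by
    rw [Real.sqrt_div' _ hp0.le, Real.sqrt_mul hp0.le]
    have : m = Real.sqrt m * Real.sqrt m := (Real.mul_self_sqrt hm0.le).symm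
    have hm2 : m / Real.sqrt m = Real.sqrt m := Real.div_sqrt
    field_simp
    rw [Real.sq_sqrt hm0.le]
  have e2 : Real.sqrt (m / p) * (Y ^ k * p / (2 * Real.pi ^ 2)) /
      ((k.factorial : ℝ) * Y ^ (k + 1)) =
      Real.sqrt (m * p) / (2 * Real.pi ^ 2 * (k.factorial : ℝ) * Y) := by
    rw [Real.sqrt_div' _ hp0.le, Real.sqrt_mul hm0.le]
    have hpi := Real.pi_pos.ne'
    field_simp
    rw [Real.sq_sqrt hp0.le]
    ring
  rw [← e1, ← e2]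
  push_cast
  ring

/-- the constant of the tail -/
def Zc : ℝ := ∑' j : ℕ, 1 / ((j : ℝ) + 1) ^ 2

lemma zc_sum : Summable (fun j : ℕ => 1 / ((j : ℝ) + 1) ^ 2) := by
  have h1 : Summable (fun j : ℕ => 1 / ((j : ℝ)) ^ 2) := Real.summable_one_div_nat_pow.2 (by norm_num)
  have h2 := (summable_nat_add_iff 1).2 h1
  simpa using h2

lemma zc_nonneg : 0 ≤ Zc := tsum_nonneg fun j => by positivity

lemma norm_ee (h : ℕ) (a : ℤ) : ‖ee h a‖ = 1 := by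
  unfold ee
  have : 2 * (Real.pi : ℂ) * Complex.I * ((a : ℂ) / (h : ℂ)) =
      ((2 * Real.pi * ((a : ℝ) / (h : ℝ)) : ℝ) : ℂ) * Complex.I := by
    push_cast
    ring
  rw [this, Complex.norm_exp_ofReal_mul_I]

lemma d2_le (j : ℕ) : d2 j ≤ j := by
  unfold d2
  exact_mod_cast Nat.card_divisors_le_self j

lemma d2_nonneg (j : ℕ) : 0 ≤ d2 j := by
  unfold d2
  positivity

lemma dt_zero (i : Fin 2) (k h m : ℕ) (σ Y : ℝ) : Dt i k h m σ Y 0 = 0 := by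
  unfold Dt d2
  simp

lemma norm_dt (i : Fin 2) (k h m : ℕ) (σ Y : ℝ) (j : ℕ) (hj : 1 ≤ j) :
    ‖Dt i k h m σ Y j‖ ≤ ‖Kc i k σ (4 * Real.pi ^ 2 * Y * j / ((m : ℝ) * h))‖ := by
  unfold Dt ech
  rw [norm_mul, norm_mul, norm_ee, mul_one, Complex.norm_real, Real.norm_eq_abs,
    abs_of_nonneg (div_nonneg (d2_nonneg j) (Nat.cast_nonneg j))]
  have hj0 : (0:ℝ) < j := by exact_mod_cast hj
  have h1 : d2 j / j ≤ 1 := (div_le_one hj0).2 (d2_le j)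
  calc _ ≤ 1 * ‖Kc i k σ (4 * Real.pi ^ 2 * Y * j / ((m : ℝ) * h))‖ :=
        mul_le_mul_of_nonneg_right h1 (norm_nonneg _)
    _ = _ := one_mul _

lemma tail_bd (h7a : S7a) {B : ℕ} (hB2 : 2 ≤ B) {C : ℝ} {A : ℕ} (hC : 0 < C)
    (hK : ∀ (i : Fin 2) (k : ℕ), B + 1 ≤ k → ∀ x : ℝ, 0 < x →
      ‖Kc i k (-(B : ℝ)) x‖ ≤ C * (k : ℝ) ^ A * (k.factorial : ℝ) * x ^ (-(B : ℝ)))
    (i : Fin 2) (k : ℕ) (hk : B + 1 ≤ k) (h m : ℕ) (hh : 1 ≤ h) (hm : 1 ≤ m) (Y T U : ℝ)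
    (hY : 0 < Y) (hT : 0 < T) (hU : 0 < U) (J : ℕ)
    (hx1 : ∀ j : ℕ, J < j → U ≤ 4 * Real.pi ^ 2 * Y * j / ((m : ℝ) * h))
    (hx2 : ∀ j : ℕ, (j : ℝ) / T ≤ 4 * Real.pi ^ 2 * Y * j / ((m : ℝ) * h))
    (hs : Summable (fun j : ℕ => Dt i k h m (-(1 / 4)) Y j)) :
    ‖(∑' j : ℕ, Dt i k h m (-(1 / 4)) Y j) - ∑ j ∈ Icc 1 J, Dt i k h m (1 / 2) Y j‖ ≤
      C * (k : ℝ) ^ A * (k.factorial : ℝ) * ((U ^ (B - 2))⁻¹ * T ^ 2) * Zc := by
  have hk1 : 1 ≤ k := by omega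
  have hkB : (B : ℝ) + 1 ≤ k := by exact_mod_cast hk
  have hk0 : (1 : ℝ) ≤ k := by exact_mod_cast hk1
  have hm0 : (0:ℝ) < m := by exact_mod_cast hm
  have hh0 : (0:ℝ) < h := by exact_mod_cast hh
  have hxpos : ∀ j : ℕ, 1 ≤ j → 0 < 4 * Real.pi ^ 2 * Y * j / ((m : ℝ) * h) := by
    intro j hj
    have : (0:ℝ) < j := by exact_mod_cast hj
    have := Real.pi_pos
    positivity
  have hhead : ∑ j ∈ Icc 1 J, Dt i k h m (1 / 2) Y j = ∑ j ∈ range (J + 1), Dt i k h m (-(1 / 4)) Y j := by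
    rw [Finset.sum_range_succ', dt_zero, add_zero, Finset.range_eq_Ico,
      Finset.sum_Ico_add' (fun j => Dt i k h m (-(1 / 4)) Y j) 0 J 1]
    have : Finset.Ico (0 + 1) (J + 1) = Icc 1 J := by
      ext j
      rw [Finset.mem_Ico, Finset.mem_Icc]
      omega
    rw [this]
    refine Finset.sum_congr rfl fun j hj => ?_
    rw [Finset.mem_Icc] at hj
    unfold Dt
    rw [h7a i k (1 / 2) (-(1 / 4)) _ (by linarith) (by norm_num) (by linarith) (by norm_num)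
      (hxpos j hj.1)]
  rw [hhead, ← hs.sum_add_tsum_nat_add (J + 1), add_sub_cancel_left]
  obtain ⟨M, hM⟩ : ∃ M, M = C * (k : ℝ) ^ A * (k.factorial : ℝ) * ((U ^ (B - 2))⁻¹ * T ^ 2) :=
    ⟨_, rfl⟩
  rw [← hM]
  have hM0 : 0 ≤ M := by rw [hM]; positivity
  refine tsum_of_norm_bounded (zc_sum.hasSum.mul_left M) fun j => ?_
  have hj1 : 1 ≤ j + (J + 1) := by omega
  refine (norm_dt i k h m _ Y _ hj1).trans ?_
  obtain ⟨x, hx⟩ : ∃ x, x = 4 * Real.pi ^ 2 * Y * ((j + (J + 1) : ℕ) : ℝ) / ((m : ℝ) * h) := ⟨_, rfl⟩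
  rw [← hx]
  have hx0 : 0 < x := by rw [hx]; exact hxpos _ hj1
  have hxU : U ≤ x := by rw [hx]; exact hx1 _ (by omega)
  have hxT : ((j + (J + 1) : ℕ) : ℝ) / T ≤ x := by rw [hx]; exact hx2 _
  rw [h7a i k (-(1 / 4)) (-(B : ℝ)) x (by linarith) (by norm_num) (by linarith)
    (by linarith [Nat.cast_nonneg (α := ℝ) B]) hx0]
  refine (hK i k hk x hx0).trans ?_
  rw [hM, mul_assoc, mul_assoc]
  have hck : 0 ≤ C * ((k : ℝ) ^ A * (k.factorial : ℝ)) := by positivity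
  have hxB : x ^ (-(B : ℝ)) ≤ ((U ^ (B - 2))⁻¹ * T ^ 2) * (1 / ((j : ℝ) + 1) ^ 2) := by
    rw [Real.rpow_neg hx0.le, Real.rpow_natCast]
    have hBe : B = (B - 2) + 2 := by omega
    have e1 : U ^ (B - 2) * (((j : ℝ) + 1) / T) ^ 2 ≤ x ^ B := by
      conv_rhs => rw [hBe, pow_add]
      apply mul_le_mul (pow_le_pow_left₀ hU.le hxU _) _ (by positivity) (by positivity)
      apply pow_le_pow_left₀ (by positivity)
      refine le_trans ?_ hxT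
      apply div_le_div_of_nonneg_right _ hT.le
      push_cast
      linarith [Nat.cast_nonneg (α := ℝ) J]
    have e2 : 0 < U ^ (B - 2) * (((j : ℝ) + 1) / T) ^ 2 := by positivity
    calc (x ^ B)⁻¹ ≤ (U ^ (B - 2) * (((j : ℝ) + 1) / T) ^ 2)⁻¹ := inv_anti₀ e2 e1
      _ = ((U ^ (B - 2))⁻¹ * T ^ 2) * (1 / ((j : ℝ) + 1) ^ 2) := by
        field_simp
  calc C * ((k : ℝ) ^ A * ((k.factorial : ℝ) * x ^ (-(B : ℝ))))
      = C * ((k : ℝ) ^ A * (k.factorial : ℝ)) * x ^ (-(B : ℝ)) := by ring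
    _ ≤ C * ((k : ℝ) ^ A * (k.factorial : ℝ)) *
        (((U ^ (B - 2))⁻¹ * T ^ 2) * (1 / ((j : ℝ) + 1) ^ 2)) :=
        mul_le_mul_of_nonneg_left hxB hck
    _ = _ := by ring

lemma err_bd (h6 : S6) (h7a : S7a) {B : ℕ} (hB2 : 2 ≤ B) {C : ℝ} {A : ℕ} (hC : 0 < C)
    (hK : ∀ (i : Fin 2) (k : ℕ), B + 1 ≤ k → ∀ x : ℝ, 0 < x →
      ‖Kc i k (-(B : ℝ)) x‖ ≤ C * (k : ℝ) ^ A * (k.factorial : ℝ) * x ^ (-(B : ℝ)))
    (k : ℕ) (hk : B + 1 ≤ k) (Y T U : ℝ) (hY : 1 ≤ Y) (hT : 1 ≤ T) (hU : 0 < U)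
    (N J h l : ℕ) (a : ℕ → ℝ) (ha : ∀ n, |a n| ≤ d2 n) (hh : 1 ≤ h) (hl : 1 ≤ l)
    (hc : Nat.Coprime h l) (hN : (N : ℝ) ≤ T) (h1 : U * ((h : ℝ) * l * N) ≤ 4 * Y * J)
    (h2 : (h : ℝ) * l * N ≤ Y * T) (h3 : (h : ℝ) * l * N ≤ T ^ 2) :
    ‖Err k Y N a h l - (Hd 0 k Y N J a h l + Hd 1 k Y N J a h l)‖ ≤
      2 * C * Zc * (k : ℝ) ^ A * (T ^ 5 * (U ^ (B - 2))⁻¹) := by
  have hY0 : 0 < Y := by linarith
  have hT0 : 0 < T := by linarith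
  have hk1 : 1 ≤ k := by omega
  have hpi : (1:ℝ) ≤ Real.pi ^ 2 := by nlinarith [Real.pi_gt_three]
  have hpi0 := Real.pi_pos
  have hkf : (0:ℝ) < (k.factorial : ℝ) := by exact_mod_cast Nat.factorial_pos k
  obtain ⟨R, hR⟩ : ∃ R : ℕ → Fin 2 → ℂ, ∀ n i, R n i =
      (∑' j : ℕ, Dt i k (hp h n) (mp h l n) (-(1 / 4)) Y j) -
        ∑ j ∈ Icc 1 J, Dt i k (hp h n) (mp h l n) (1 / 2) Y j := ⟨_, fun _ _ => rfl⟩
  have hkey : ∀ n ∈ Icc 1 N, (1:ℝ) ≤ (hp h n : ℝ) * mp h l n ∧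
      (hp h n : ℝ) * mp h l n ≤ (h : ℝ) * l * N := by
    intro n hn
    rw [Finset.mem_Icc] at hn
    obtain ⟨a1, a2, a3, a4⟩ := hp_mp h l n hh hl hc hn.1
    constructor
    · exact_mod_cast Nat.mul_pos a1 a2
    · calc (hp h n : ℝ) * mp h l n ≤ (h : ℝ) * l * n := by exact_mod_cast a4
        _ ≤ (h : ℝ) * l * N := by
          apply mul_le_mul_of_nonneg_left _ (by positivity)
          exact_mod_cast hn.2
  have hRb : ∀ n ∈ Icc 1 N, ∀ i : Fin 2, ‖R n i‖ ≤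
      C * (k : ℝ) ^ A * (k.factorial : ℝ) * ((U ^ (B - 2))⁻¹ * T ^ 2) * Zc := by
    intro n hn i
    have hn' := Finset.mem_Icc.1 hn
    obtain ⟨a1, a2, a3, a4⟩ := hp_mp h l n hh hl hc hn'.1
    obtain ⟨b1, b2⟩ := hkey n hn
    have b0 : 0 < (mp h l n : ℝ) * (hp h n : ℝ) := by
      rw [mul_comm]
      linarith
    rw [hR]
    refine tail_bd h7a hB2 hC hK i k hk (hp h n) (mp h l n) a1 a2 Y T U hY0 hT0 hU J ?_ ?_ ?_
    · intro j hj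
      rw [le_div_iff₀ b0]
      have hjJ : (J : ℝ) ≤ j := by exact_mod_cast hj.le
      have hJ0 : (0:ℝ) ≤ J := Nat.cast_nonneg _
      calc U * ((mp h l n : ℝ) * hp h n) ≤ U * ((h : ℝ) * l * N) := by
            apply mul_le_mul_of_nonneg_left _ hU.le
            rw [mul_comm]
            exact b2
        _ ≤ 4 * Y * J := h1
        _ ≤ 4 * Y * j := by
            apply mul_le_mul_of_nonneg_left hjJ (by positivity)
        _ = 1 * (4 * Y * j) := by ring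
        _ ≤ Real.pi ^ 2 * (4 * Y * j) := by
            apply mul_le_mul_of_nonneg_right hpi (by positivity)
        _ = _ := by ring
    · intro j
      rw [div_le_div_iff₀ hT0 b0]
      have hj0 : (0:ℝ) ≤ j := Nat.cast_nonneg _
      have : (mp h l n : ℝ) * hp h n ≤ 4 * Real.pi ^ 2 * Y * T := by
        calc (mp h l n : ℝ) * hp h n ≤ (h : ℝ) * l * N := by rw [mul_comm]; exact b2
          _ ≤ Y * T := h2
          _ = 1 * (Y * T) := by ring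
          _ ≤ (4 * Real.pi ^ 2) * (Y * T) := by
            apply mul_le_mul_of_nonneg_right (by linarith) (by positivity)
          _ = _ := by ring
      calc (j : ℝ) * ((mp h l n : ℝ) * hp h n) ≤ j * (4 * Real.pi ^ 2 * Y * T) :=
            mul_le_mul_of_nonneg_left this hj0
        _ = _ := by ring
    · obtain ⟨s0, s1, _⟩ := h6 k (hp h n) (mp h l n) hk1 a1 a2 a3 Y hY0
      fin_cases i
      · exact s0
      · exact s1
  have hid : Err k Y N a h l - (Hd 0 k Y N J a h l + Hd 1 k Y N J a h l) =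
      ∑ n ∈ Icc 1 N, ((a n / Real.sqrt n : ℝ) : ℂ) * ((cf k Y h l n : ℂ) * (R n 0 + R n 1)) := by
    unfold Err Hd
    rw [← Finset.sum_add_distrib, ← Finset.sum_sub_distrib]
    refine Finset.sum_congr rfl fun n hn => ?_
    have hn' := Finset.mem_Icc.1 hn
    rw [tv_sub h6 k hk1 Y hY0 h l n hh hl hc hn'.1, hR, hR]
    unfold cf
    ring
  rw [hid]
  refine (norm_sum_le _ _).trans ?_
  obtain ⟨G, hG⟩ : ∃ G, G = C * (k : ℝ) ^ A * ((U ^ (B - 2))⁻¹ * T ^ 2) * Zc := ⟨_, rfl⟩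
  have hG0 : 0 ≤ G := by
    rw [hG]
    have := zc_nonneg
    positivity
  have hterm : ∀ n ∈ Icc 1 N, ‖((a n / Real.sqrt n : ℝ) : ℂ) * ((cf k Y h l n : ℂ) *
      (R n 0 + R n 1))‖ ≤ T * T * (2 * G) := by
    intro n hn
    have hn' := Finset.mem_Icc.1 hn
    have hnN : (n : ℝ) ≤ N := by exact_mod_cast hn'.2
    have hn1 : (1 : ℝ) ≤ n := by exact_mod_cast hn'.1
    obtain ⟨b1, b2⟩ := hkey n hn
    rw [norm_mul, norm_mul, Complex.norm_real, Complex.norm_real, Real.norm_eq_abs,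
      Real.norm_eq_abs]
    have c1 : |a n / Real.sqrt n| ≤ T := by
      rw [abs_div, abs_of_nonneg (Real.sqrt_nonneg _)]
      have : 1 ≤ Real.sqrt n := Real.one_le_sqrt.2 hn1
      calc |a n| / Real.sqrt n ≤ |a n| / 1 :=
            div_le_div_of_nonneg_left (abs_nonneg _) one_pos this
        _ = |a n| := div_one _
        _ ≤ d2 n := ha n
        _ ≤ n := d2_le n
        _ ≤ T := hnN.trans hN
    have c2 : |cf k Y h l n| ≤ T / (k.factorial : ℝ) := by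
      unfold cf
      have hsq : Real.sqrt ((mp h l n : ℝ) * hp h n) ≤ T := by
        rw [Real.sqrt_le_left hT0.le, mul_comm]
        exact b2.trans h3
      rw [abs_of_nonneg (by positivity)]
      rw [div_le_div_iff₀ (by positivity) hkf]
      have e1 : (k.factorial : ℝ) ≤ 2 * Real.pi ^ 2 * (k.factorial : ℝ) * Y := by
        have : 1 ≤ 2 * Real.pi ^ 2 * Y := by nlinarith
        nlinarith
      exact mul_le_mul hsq e1 hkf.le hT0.le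
    have c3 : ‖R n 0 + R n 1‖ ≤ 2 * ((k.factorial : ℝ) * G) := by
      refine (norm_add_le _ _).trans ?_
      have r0 := hRb n hn 0
      have r1 := hRb n hn 1
      rw [hG]
      nlinarith
    calc |a n / Real.sqrt n| * (|cf k Y h l n| * ‖R n 0 + R n 1‖)
        ≤ T * (T / (k.factorial : ℝ) * (2 * ((k.factorial : ℝ) * G))) := by
          apply mul_le_mul c1 _ (by positivity) hT0.le
          exact mul_le_mul c2 c3 (norm_nonneg _) (by positivity)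
      _ = T * T * (2 * G) := by
          field_simp
  refine (Finset.sum_le_card_nsmul _ _ _ hterm).trans ?_
  rw [Nat.card_Icc, nsmul_eq_mul, Nat.add_sub_cancel]
  calc (N : ℝ) * (T * T * (2 * G)) ≤ T * (T * T * (2 * G)) :=
        mul_le_mul_of_nonneg_right hN (by positivity)
    _ = _ := by
        rw [hG]
        ring

lemma block_num (X T D U Y H L N J : ℝ) (hH : 1 ≤ H) (hHX : H ≤ X) (hL : 1 ≤ L) (hLX : L ≤ X)
    (hN : 1 ≤ N) (hNX : N ≤ X) (hT : 0 < T) (hY : 0 < Y) (hU : 0 < U) (hD : 0 < D)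
    (hTY : T ≤ D * Y) (hUD : U * D * X ^ 2 ≤ T) (hJ0 : 0 ≤ J) (hJ : J ≤ U * H * L * N / Y + 2) :
    (1 + L / H) * (H ^ 2 + N * J) ≤ 8 * X ^ 2 ∧ H * L * N * J ≤ 3 * X ^ 4 := by
  have hX : 1 ≤ X := hH.trans hHX
  have hX0 : 0 < X := by linarith
  have hH0 : 0 < H := by linarith
  have hL0 : 0 < L := by linarith
  have hN0 : 0 < N := by linarith
  -- `U X ^ 2 / Y ≤ 1`
  have hq : U * X ^ 2 ≤ Y := by
    have h1 : U * D * X ^ 2 ≤ D * Y := hUD.trans hTY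
    have h2 : D * (U * X ^ 2) ≤ D * Y := by linarith
    exact le_of_mul_le_mul_left h2 hD
  have hJ1 : J ≤ H * L * N / X ^ 2 + 2 := by
    refine hJ.trans ?_
    have : U * H * L * N / Y ≤ H * L * N / X ^ 2 := by
      rw [div_le_div_iff₀ hY (by positivity)]
      calc U * H * L * N * X ^ 2 = H * L * N * (U * X ^ 2) := by ring
        _ ≤ H * L * N * Y := mul_le_mul_of_nonneg_left hq (by positivity)
    linarith
  have hJ3 : J ≤ 3 * X := by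
    have : H * L * N / X ^ 2 ≤ X := by
      rw [div_le_iff₀ (by positivity)]
      calc H * L * N ≤ X * X * X := by gcongr
        _ = X * X ^ 2 := by ring
    linarith
  constructor
  · have e1 : (1 + L / H) * (H ^ 2 + N * J) = H ^ 2 + L * H + N * J + L * N * (J / H) := by
      field_simp
      ring
    rw [e1]
    have f1 : H ^ 2 ≤ X ^ 2 := pow_le_pow_left₀ hH0.le hHX 2
    have f2 : L * H ≤ X ^ 2 := by
      calc L * H ≤ X * X := by gcongr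
        _ = X ^ 2 := by ring
    have f3 : N * J ≤ 3 * X ^ 2 := by
      calc N * J ≤ X * (3 * X) := by gcongr
        _ = 3 * X ^ 2 := by ring
    have f4 : J / H ≤ 3 := by
      rw [div_le_iff₀ hH0]
      have : H * L * N / X ^ 2 ≤ H := by
        rw [div_le_iff₀ (by positivity)]
        calc H * L * N = H * (L * N) := by ring
          _ ≤ H * (X * X) := by gcongr
          _ = H * X ^ 2 := by ring
      linarith
    have f5 : L * N * (J / H) ≤ 3 * X ^ 2 := by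
      calc L * N * (J / H) ≤ X * X * 3 := by
            have : 0 ≤ J / H := by positivity
            gcongr
        _ = 3 * X ^ 2 := by ring
    linarith
  · calc H * L * N * J ≤ X * X * X * (3 * X) := by gcongr
      _ = 3 * X ^ 4 := by ring

/-- the length of the head -/
def Jf (U Y : ℝ) (N : ℕ) (p : ℕ × ℕ) : ℕ := ⌈U * 2 ^ p.1 * 2 ^ p.2 * N / Y⌉₊ + 1

lemma head_block {ε2 : ℝ} (hε2 : 0 < ε2) {C1 : ℝ} {A1 : ℕ} (hC1 : 0 < C1) (i : Fin 2) (k : ℕ)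
    (hk : 1 ≤ k) (Y : ℝ) (hY : 1 ≤ Y)
    (h9 : ∀ N J H L : ℕ, 1 ≤ N → 1 ≤ J → 1 ≤ H → 1 ≤ L →
      ∀ a : ℕ → ℝ, (∀ n, |a n| ≤ d2 n) →
      ∑ h ∈ Ico H (2 * H), ∑ l ∈ (Ico L (2 * L)).filter (fun l => Nat.Coprime h l),
        ‖Hd i k Y N J a h l‖ ^ 2 ≤
        C1 * (k : ℝ) ^ A1 * ((H : ℝ) * L * N * J) ^ ε2 / Y * (1 + (L : ℝ) / H) * ((H : ℝ) ^ 2 + N * J))
    (X T D U : ℝ) (hT : 0 < T) (hU : 0 < U) (hD : 0 < D)
    (hTY : T ≤ D * Y) (hUD : U * D * X ^ 2 ≤ T) (N : ℕ) (hN : 1 ≤ N) (hNX : (N : ℝ) ≤ X)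
    (a : ℕ → ℝ) (ha : ∀ n, |a n| ≤ d2 n) (S : Finset (ℕ × ℕ))
    (hS : ∀ b ∈ S, 1 ≤ b.1 ∧ 1 ≤ b.2 ∧ Nat.Coprime b.1 b.2 ∧ (b.1 : ℝ) ≤ X ∧ (b.2 : ℝ) ≤ X)
    (P : ℝ) (hP : C1 * (k : ℝ) ^ A1 * (3 * X ^ 4) ^ ε2 / Y * (8 * X ^ 2) ≤ P) (p : ℕ × ℕ) :
    ∑ b ∈ S.filter (fun b => (Nat.log 2 b.1, Nat.log 2 b.2) = p),
      ‖Hd i k Y N (Jf U Y N p) a b.1 b.2‖ ^ 2 ≤ P := by
  have hX1 : (1:ℝ) ≤ X := le_trans (by exact_mod_cast hN) hNX
  have hY0 : 0 < Y := by linarith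
  have hP0 : 0 ≤ P := le_trans (by positivity) hP
  rcases (S.filter (fun b => (Nat.log 2 b.1, Nat.log 2 b.2) = p)).eq_empty_or_nonempty with h0 | ⟨b0, hb0⟩
  · rw [h0, Finset.sum_empty]
    exact hP0
  rw [Finset.mem_filter] at hb0
  obtain ⟨hb0S, hb0p⟩ := hb0
  obtain ⟨g1, g2, g3, g4, g5⟩ := hS b0 hb0S
  obtain ⟨H, hH⟩ : ∃ H : ℕ, H = 2 ^ p.1 := ⟨_, rfl⟩
  obtain ⟨L, hL⟩ : ∃ L : ℕ, L = 2 ^ p.2 := ⟨_, rfl⟩
  have hH1 : 1 ≤ H := by rw [hH]; exact Nat.one_le_two_pow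
  have hL1 : 1 ≤ L := by rw [hL]; exact Nat.one_le_two_pow
  have hHX : (H : ℝ) ≤ X := by
    refine le_trans ?_ g4
    have : H ≤ b0.1 := by
      rw [hH, ← hb0p]
      exact Nat.pow_log_le_self 2 (by omega)
    exact_mod_cast this
  have hLX : (L : ℝ) ≤ X := by
    refine le_trans ?_ g5
    have : L ≤ b0.2 := by
      rw [hL, ← hb0p]
      exact Nat.pow_log_le_self 2 (by omega)
    exact_mod_cast this
  have hN1 : (1:ℝ) ≤ N := by exact_mod_cast hN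
  obtain ⟨J, hJ⟩ : ∃ J, J = Jf U Y N p := ⟨_, rfl⟩
  have hJ1 : 1 ≤ J := by rw [hJ]; unfold Jf; omega
  have hJle : (J : ℝ) ≤ U * H * L * N / Y + 2 := by
    rw [hJ]
    unfold Jf
    push_cast
    have h1 : (⌈U * 2 ^ p.1 * 2 ^ p.2 * N / Y⌉₊ : ℝ) < U * 2 ^ p.1 * 2 ^ p.2 * N / Y + 1 :=
      Nat.ceil_lt_add_one (by positivity)
    have h2 : U * (H : ℝ) * L * N / Y = U * 2 ^ p.1 * 2 ^ p.2 * N / Y := by
      rw [hH, hL]
      push_cast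
      ring
    rw [h2]
    linarith
  obtain ⟨n1, n2⟩ := block_num X T D U Y H L N J (by exact_mod_cast hH1) hHX
    (by exact_mod_cast hL1) hLX hN1 hNX hT hY0 hU hD hTY hUD (Nat.cast_nonneg _) hJle
  have h9' := h9 N J H L hN hJ1 hH1 hL1 a ha
  rw [← hJ]
  refine le_trans ?_ (h9'.trans (le_trans ?_ hP))
  · -- the fibre is contained in the block
    have hsub : S.filter (fun b => (Nat.log 2 b.1, Nat.log 2 b.2) = p) ⊆
        (Ico H (2 * H)) ×ˢ (Ico L (2 * L)) := by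
      intro b hb
      rw [Finset.mem_filter] at hb
      obtain ⟨hbS, hbp⟩ := hb
      obtain ⟨f1, f2, f3, f4, f5⟩ := hS b hbS
      rw [Finset.mem_product, Finset.mem_Ico, Finset.mem_Ico, hH, hL, ← hbp]
      refine ⟨⟨Nat.pow_log_le_self 2 (by omega), ?_⟩, Nat.pow_log_le_self 2 (by omega), ?_⟩
      · have := Nat.lt_pow_succ_log_self (b := 2) (by norm_num) b.1
        rw [pow_succ] at this
        simp only
        omega
      · have := Nat.lt_pow_succ_log_self (b := 2) (by norm_num) b.2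
        rw [pow_succ] at this
        simp only
        omega
    have hrw : ∑ h ∈ Ico H (2 * H), ∑ l ∈ (Ico L (2 * L)).filter (fun l => Nat.Coprime h l),
        ‖Hd i k Y N J a h l‖ ^ 2 = ∑ b ∈ (Ico H (2 * H)) ×ˢ (Ico L (2 * L)),
          if Nat.Coprime b.1 b.2 then ‖Hd i k Y N J a b.1 b.2‖ ^ 2 else 0 := by
      rw [Finset.sum_product]
      refine Finset.sum_congr rfl fun h _ => ?_
      rw [Finset.sum_filter]
    rw [hrw]
    refine le_trans (le_of_eq ?_) (Finset.sum_le_sum_of_subset_of_nonneg hsub ?_)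
    · refine Finset.sum_congr rfl fun b hb => ?_
      rw [Finset.mem_filter] at hb
      rw [if_pos (hS b hb.1).2.2.1]
    · intro b _ _
      split_ifs
      · positivity
      · exact le_rfl
  · have hk0 : (0:ℝ) ≤ (k : ℝ) := Nat.cast_nonneg _
    have e1 : ((H : ℝ) * L * N * J) ^ ε2 ≤ (3 * X ^ 4) ^ ε2 :=
      Real.rpow_le_rpow (by positivity) n2 hε2.le
    have e2 : 0 ≤ C1 * (k : ℝ) ^ A1 * ((H : ℝ) * L * N * J) ^ ε2 / Y := by positivity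
    have e3 : C1 * (k : ℝ) ^ A1 * ((H : ℝ) * L * N * J) ^ ε2 / Y ≤
        C1 * (k : ℝ) ^ A1 * (3 * X ^ 4) ^ ε2 / Y := by
      apply div_le_div_of_nonneg_right _ hY0.le
      exact mul_le_mul_of_nonneg_left e1 (by positivity)
    rw [mul_assoc]
    exact mul_le_mul e3 n1 (by positivity) (by positivity)

lemma core (h6 : S6) (h7a : S7a) {B : ℕ} (hB2 : 2 ≤ B) {C : ℝ} {A : ℕ} (hC : 0 < C)
    (hK : ∀ (i : Fin 2) (k : ℕ), B + 1 ≤ k → ∀ x : ℝ, 0 < x →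
      ‖Kc i k (-(B : ℝ)) x‖ ≤ C * (k : ℝ) ^ A * (k.factorial : ℝ) * x ^ (-(B : ℝ)))
    {ε2 : ℝ} (hε2 : 0 < ε2) {C1 : ℝ} {A1 : ℕ} (hC1 : 0 < C1) (k : ℕ) (hk : B + 1 ≤ k)
    (Y : ℝ) (hY : 1 ≤ Y)
    (h9 : ∀ i : Fin 2, ∀ N J H L : ℕ, 1 ≤ N → 1 ≤ J → 1 ≤ H → 1 ≤ L →
      ∀ a : ℕ → ℝ, (∀ n, |a n| ≤ d2 n) →
      ∑ h ∈ Ico H (2 * H), ∑ l ∈ (Ico L (2 * L)).filter (fun l => Nat.Coprime h l),
        ‖Hd i k Y N J a h l‖ ^ 2 ≤
        C1 * (k : ℝ) ^ A1 * ((H : ℝ) * L * N * J) ^ ε2 / Y * (1 + (L : ℝ) / H) * ((H : ℝ) ^ 2 + N * J))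
    (X T D U : ℝ) (hT : 1 ≤ T) (hU : 0 < U) (hD : 0 < D) (hXT : X ≤ T) (hX2 : X ^ 2 ≤ T)
    (hU1 : 1 ≤ U)
    (hTY : T ≤ D * Y) (hUD : U * D * X ^ 2 ≤ T) (N : ℕ) (hN : 1 ≤ N) (hNX : (N : ℝ) ≤ X)
    (a : ℕ → ℝ) (ha : ∀ n, |a n| ≤ d2 n) (S : Finset (ℕ × ℕ))
    (hS : ∀ b ∈ S, 1 ≤ b.1 ∧ 1 ≤ b.2 ∧ Nat.Coprime b.1 b.2 ∧ (b.1 : ℝ) ≤ X ∧ (b.2 : ℝ) ≤ X)
    (P : ℝ) (hP : C1 * (k : ℝ) ^ A1 * (3 * X ^ 4) ^ ε2 / Y * (8 * X ^ 2) ≤ P)
    (Q : ℝ) (hQ : 2 * C * Zc * (k : ℝ) ^ A * (T ^ 5 * (U ^ (B - 2))⁻¹) ≤ Q)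
    (M : ℕ) (hM : ∀ n : ℕ, (n : ℝ) ≤ X → Nat.log 2 n < M) :
    ∑ b ∈ S, ‖Err k Y N a b.1 b.2‖ ^ 2 ≤ 3 * (2 * (M : ℝ) ^ 2 * P + T * Q ^ 2) := by
  have hX1 : (1:ℝ) ≤ X := le_trans (by exact_mod_cast hN) hNX
  have hX0 : 0 < X := by linarith
  have hY0 : 0 < Y := by linarith
  have hT0 : 0 < T := by linarith
  have hQ0 : 0 ≤ Q := by
    refine le_trans ?_ hQ
    have := zc_nonneg
    positivity
  have hXY : X ^ 2 ≤ Y := by
    have h1 : U * D * X ^ 2 ≤ D * Y := hUD.trans hTY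
    have h2 : D * (U * X ^ 2) ≤ D * Y := by linarith
    have h3 := le_of_mul_le_mul_left h2 hD
    nlinarith [sq_nonneg X]
  have hpt : ∀ b ∈ S, ‖Err k Y N a b.1 b.2‖ ^ 2 ≤
      3 * (‖Hd 0 k Y N (Jf U Y N (Nat.log 2 b.1, Nat.log 2 b.2)) a b.1 b.2‖ ^ 2 +
        ‖Hd 1 k Y N (Jf U Y N (Nat.log 2 b.1, Nat.log 2 b.2)) a b.1 b.2‖ ^ 2 + Q ^ 2) := by
    intro b hb
    obtain ⟨f1, f2, f3, f4, f5⟩ := hS b hb
    obtain ⟨J, hJ⟩ : ∃ J, J = Jf U Y N (Nat.log 2 b.1, Nat.log 2 b.2) := ⟨_, rfl⟩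
    rw [← hJ]
    have hb1 : (0:ℝ) ≤ b.1 := Nat.cast_nonneg _
    have hb2 : (0:ℝ) ≤ b.2 := Nat.cast_nonneg _
    have hNn : (0:ℝ) ≤ N := Nat.cast_nonneg _
    have hprod : (b.1 : ℝ) * b.2 * N ≤ X ^ 2 * X := by
      calc (b.1 : ℝ) * b.2 * N ≤ X * X * X := by gcongr
        _ = X ^ 2 * X := by ring
    have h1 : U * ((b.1 : ℝ) * b.2 * N) ≤ 4 * Y * J := by
      have g1 : (b.1 : ℝ) ≤ 2 * 2 ^ Nat.log 2 b.1 := by
        have := Nat.lt_pow_succ_log_self (b := 2) (by norm_num) b.1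
        rw [pow_succ] at this
        have h' : b.1 ≤ 2 * 2 ^ Nat.log 2 b.1 := by omega
        exact_mod_cast h'
      have g2 : (b.2 : ℝ) ≤ 2 * 2 ^ Nat.log 2 b.2 := by
        have := Nat.lt_pow_succ_log_self (b := 2) (by norm_num) b.2
        rw [pow_succ] at this
        have h' : b.2 ≤ 2 * 2 ^ Nat.log 2 b.2 := by omega
        exact_mod_cast h'
      have g3 : U * 2 ^ (Nat.log 2 b.1) * 2 ^ (Nat.log 2 b.2) * N / Y ≤ J := by
        rw [hJ]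
        unfold Jf
        push_cast
        have := Nat.le_ceil (U * 2 ^ (Nat.log 2 b.1) * 2 ^ (Nat.log 2 b.2) * N / Y)
        linarith
      rw [div_le_iff₀ hY0] at g3
      calc U * ((b.1 : ℝ) * b.2 * N) ≤ U * ((2 * 2 ^ Nat.log 2 b.1) * (2 * 2 ^ Nat.log 2 b.2) * N) := by
            gcongr
        _ = 4 * (U * 2 ^ (Nat.log 2 b.1) * 2 ^ (Nat.log 2 b.2) * N) := by ring
        _ ≤ 4 * (J * Y) := by linarith
        _ = 4 * Y * J := by ring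
    have h2 : (b.1 : ℝ) * b.2 * N ≤ Y * T := hprod.trans (by gcongr)
    have h3 : (b.1 : ℝ) * b.2 * N ≤ T ^ 2 := hprod.trans (by
      calc X ^ 2 * X ≤ T * T := by gcongr
        _ = T ^ 2 := by ring)
    have he := (err_bd h6 h7a hB2 hC hK k hk Y T U hY hT hU N J b.1 b.2 a ha f1 f2 f3
      (hNX.trans hXT) h1 h2 h3).trans hQ
    obtain ⟨E, hE⟩ : ∃ E, E = Err k Y N a b.1 b.2 := ⟨_, rfl⟩
    obtain ⟨V, hV⟩ : ∃ V, V = Hd 0 k Y N J a b.1 b.2 := ⟨_, rfl⟩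
    obtain ⟨W, hW⟩ : ∃ W, W = Hd 1 k Y N J a b.1 b.2 := ⟨_, rfl⟩
    rw [← hE, ← hV, ← hW] at he ⊢
    have h5 : ‖E‖ ≤ Q + ‖V‖ + ‖W‖ := by
      have : E = (E - (V + W)) + (V + W) := by ring
      calc ‖E‖ = ‖(E - (V + W)) + (V + W)‖ := by rw [← this]
        _ ≤ ‖E - (V + W)‖ + ‖V + W‖ := norm_add_le _ _
        _ ≤ Q + (‖V‖ + ‖W‖) := add_le_add he (norm_add_le _ _)
        _ = _ := by ring
    have h6' := pow_le_pow_left₀ (norm_nonneg E) h5 2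
    nlinarith [sq_nonneg (Q - ‖V‖), sq_nonneg (Q - ‖W‖), sq_nonneg (‖V‖ - ‖W‖)]
  have hfib : ∀ i : Fin 2, ∑ b ∈ S,
      ‖Hd i k Y N (Jf U Y N (Nat.log 2 b.1, Nat.log 2 b.2)) a b.1 b.2‖ ^ 2 ≤ (M : ℝ) ^ 2 * P := by
    intro i
    have hmaps : ∀ b ∈ S, (Nat.log 2 b.1, Nat.log 2 b.2) ∈ range M ×ˢ range M := by
      intro b hb
      obtain ⟨f1, f2, f3, f4, f5⟩ := hS b hb
      rw [Finset.mem_product, Finset.mem_range, Finset.mem_range]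
      exact ⟨hM _ f4, hM _ f5⟩
    rw [← Finset.sum_fiberwise_of_maps_to hmaps]
    have hb : ∀ p ∈ range M ×ˢ range M, ∑ b ∈ S.filter (fun b => (Nat.log 2 b.1, Nat.log 2 b.2) = p),
        ‖Hd i k Y N (Jf U Y N (Nat.log 2 b.1, Nat.log 2 b.2)) a b.1 b.2‖ ^ 2 ≤ P := by
      intro p _
      refine le_trans (le_of_eq ?_) (head_block hε2 hC1 i k (by omega) Y hY (h9 i) X T D U hT0 hU hD
        hTY hUD N hN hNX a ha S hS P hP p)
      refine Finset.sum_congr rfl fun b hb => ?_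
      rw [Finset.mem_filter] at hb
      rw [hb.2]
    refine (Finset.sum_le_card_nsmul _ _ _ hb).trans (le_of_eq ?_)
    rw [Finset.card_product, Finset.card_range, nsmul_eq_mul]
    push_cast
    ring
  have hcard : (S.card : ℝ) ≤ T := by
    have h1 : S ⊆ Icc 1 ⌊X⌋₊ ×ˢ Icc 1 ⌊X⌋₊ := by
      intro b hb
      obtain ⟨f1, f2, f3, f4, f5⟩ := hS b hb
      rw [Finset.mem_product, Finset.mem_Icc, Finset.mem_Icc]
      exact ⟨⟨f1, Nat.le_floor f4⟩, f2, Nat.le_floor f5⟩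
    have h2 := Finset.card_le_card h1
    rw [Finset.card_product, Nat.card_Icc, Nat.add_sub_cancel] at h2
    have h3 : (S.card : ℝ) ≤ (⌊X⌋₊ : ℝ) * ⌊X⌋₊ := by exact_mod_cast h2
    have h4 : (⌊X⌋₊ : ℝ) ≤ X := Nat.floor_le hX0.le
    have h5 : (0:ℝ) ≤ (⌊X⌋₊ : ℝ) := Nat.cast_nonneg _
    calc (S.card : ℝ) ≤ (⌊X⌋₊ : ℝ) * ⌊X⌋₊ := h3
      _ ≤ X * X := by gcongr
      _ = X ^ 2 := by ring
      _ ≤ T := hX2
  calc ∑ b ∈ S, ‖Err k Y N a b.1 b.2‖ ^ 2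
      ≤ ∑ b ∈ S, 3 * (‖Hd 0 k Y N (Jf U Y N (Nat.log 2 b.1, Nat.log 2 b.2)) a b.1 b.2‖ ^ 2 +
        ‖Hd 1 k Y N (Jf U Y N (Nat.log 2 b.1, Nat.log 2 b.2)) a b.1 b.2‖ ^ 2 + Q ^ 2) :=
        Finset.sum_le_sum hpt
    _ = 3 * (∑ b ∈ S, ‖Hd 0 k Y N (Jf U Y N (Nat.log 2 b.1, Nat.log 2 b.2)) a b.1 b.2‖ ^ 2 +
        ∑ b ∈ S, ‖Hd 1 k Y N (Jf U Y N (Nat.log 2 b.1, Nat.log 2 b.2)) a b.1 b.2‖ ^ 2 +
        S.card * Q ^ 2) := by
        rw [← Finset.mul_sum, Finset.sum_add_distrib, Finset.sum_add_distrib, Finset.sum_const,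
          nsmul_eq_mul]
    _ ≤ 3 * ((M : ℝ) ^ 2 * P + (M : ℝ) ^ 2 * P + T * Q ^ 2) := by
        have := hfib 0
        have := hfib 1
        have := mul_le_mul_of_nonneg_right hcard (sq_nonneg Q)
        linarith
    _ = _ := by ring

lemma log_bd (c : ℝ) (A : ℕ) (δ : ℝ) (hδ : 0 < δ) :
    ∀ᶠ T : ℝ in atTop, c * (4 * Real.log T ^ 2) ^ A ≤ T ^ δ := by
  have h := isLittleO_log_rpow_rpow_atTop ((2 * A : ℕ) : ℝ) hδ
  have hc : (0:ℝ) < 1 / (|c| * 4 ^ A + 1) := by positivity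
  filter_upwards [h.def hc, eventually_ge_atTop 1] with T hT hT1
  have hlog : 0 ≤ Real.log T := Real.log_nonneg hT1
  have hTδ : 0 < T ^ δ := Real.rpow_pos_of_pos (by linarith) δ
  rw [Real.rpow_natCast, Real.norm_eq_abs, Real.norm_eq_abs, abs_of_nonneg (by positivity),
    abs_of_pos hTδ, div_mul_eq_mul_div, one_mul, le_div_iff₀ (by positivity)] at hT
  have h1 : (4 * Real.log T ^ 2) ^ A = 4 ^ A * Real.log T ^ (2 * A) := by
    rw [mul_pow, ← pow_mul]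
  have hl : 0 ≤ Real.log T ^ (2 * A) := by positivity
  rw [h1]
  calc c * (4 ^ A * Real.log T ^ (2 * A)) ≤ |c| * (4 ^ A * Real.log T ^ (2 * A)) :=
        mul_le_mul_of_nonneg_right (le_abs_self c) (by positivity)
    _ = Real.log T ^ (2 * A) * (|c| * 4 ^ A) := by ring
    _ ≤ Real.log T ^ (2 * A) * (|c| * 4 ^ A + 1) :=
        mul_le_mul_of_nonneg_left (by linarith) hl
    _ ≤ T ^ δ := hT

theorem err_ms_of (h6 : S6) (h7a : S7a) (h7b : S7b) (h9 : S9) (ε : ℝ) (hε : 0 < ε)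
    (hε1 : ε < 1 / 4) : ∃ e : ℝ, 0 < e ∧ ∀ᶠ T : ℝ in atTop,
    ∀ k : ℕ, kr' T k → ∀ N : ℕ, (N : ℝ) ≤ T ^ (1 / 2 - ε) →
    ∀ a : ℕ → ℝ, (∀ n, |a n| ≤ d2 n) → ∀ S : Finset (ℕ × ℕ), (∀ b ∈ S, Adm ε T b) →
    ∑ b ∈ S, ‖Err k (Yf k T) N a b.1 b.2‖ ^ 2 ≤ T ^ (-e) := by
  refine ⟨ε, hε, ?_⟩
  obtain ⟨C1, A1, hC1, h9'⟩ := h9 (ε / 12) (by positivity)
  obtain ⟨B, hB⟩ : ∃ B : ℕ, B = ⌈32 / ε⌉₊ + 2 := ⟨_, rfl⟩
  obtain ⟨C, A, hC, hK⟩ := h7b B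
  have ev8 : ∀ᶠ T : ℝ in atTop, (8:ℝ) ≤ T ^ (ε / 8) := by
    filter_upwards [(tendsto_rpow_atTop (by positivity : 0 < ε / 8)).eventually_ge_atTop 8]
      with T hT using hT
  have evl : ∀ᶠ T : ℝ in atTop, (B : ℝ) + 1 ≤ Real.log T :=
    Real.tendsto_log_atTop.eventually_ge_atTop _
  filter_upwards [eventually_ge_atTop 6, log_bd (2 * Real.pi) 1 (ε / 16) (by positivity),
    log_bd C1 A1 (ε / 16) (by positivity), log_bd (2 * C * Zc) A 1 one_pos,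
    log_bd 27 1 (ε / 2) (by positivity), ev8, evl] with T hT6 e1 e2 e3 e4 e8 el
  intro k hk N hN a ha S hS
  have hT0 : 0 < T := by linarith
  have hT1 : 1 ≤ T := by linarith
  rcases Nat.eq_zero_or_pos N with hN0 | hNpos
  · subst hN0
    have : ∀ b ∈ S, ‖Err k (Yf k T) 0 a b.1 b.2‖ ^ 2 = 0 := by
      intro b _
      unfold Err
      simp
    rw [Finset.sum_eq_zero this]
    exact (Real.rpow_pos_of_pos hT0 _).le
  obtain ⟨hk1, hk2⟩ := hk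
  have hB0 : (0:ℝ) ≤ B := Nat.cast_nonneg _
  have hlog1 : 1 ≤ Real.log T := by linarith
  have hlogsq : Real.log T ≤ Real.log T ^ 2 := by nlinarith
  have hkB : B + 1 ≤ k := by
    have : (B : ℝ) + 1 ≤ k := by linarith
    exact_mod_cast this
  have hk0 : (1:ℝ) ≤ k := by linarith
  have hkpos : (0:ℝ) < k := by linarith
  have hpi := Real.pi_pos
  have hkA : ∀ A' : ℕ, (k : ℝ) ^ A' ≤ (4 * Real.log T ^ 2) ^ A' := fun A' =>
    pow_le_pow_left₀ hkpos.le hk2 A'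
  obtain ⟨D, hD⟩ : ∃ D, D = T ^ (ε / 16) := ⟨_, rfl⟩
  obtain ⟨U, hU⟩ : ∃ U, U = T ^ (ε / 4) := ⟨_, rfl⟩
  obtain ⟨X, hX⟩ : ∃ X, X = T ^ (1 / 2 - ε) := ⟨_, rfl⟩
  have hDpos : 0 < D := by rw [hD]; exact Real.rpow_pos_of_pos hT0 _
  have hUpos : 0 < U := by rw [hU]; exact Real.rpow_pos_of_pos hT0 _
  have hXpos : 0 < X := by rw [hX]; exact Real.rpow_pos_of_pos hT0 _
  have hU1 : 1 ≤ U := by rw [hU]; exact Real.one_le_rpow hT1 (by positivity)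
  have hX2 : X ^ 2 = T ^ (1 - 2 * ε) := by
    rw [hX, ← Real.rpow_natCast, ← Real.rpow_mul hT0.le]
    congr 1
    push_cast
    ring
  have hXT : X ≤ T := by
    rw [hX]
    conv_rhs => rw [← Real.rpow_one T]
    exact Real.rpow_le_rpow_of_exponent_le hT1 (by linarith)
  have hX2T : X ^ 2 ≤ T := by
    rw [hX2]
    conv_rhs => rw [← Real.rpow_one T]
    exact Real.rpow_le_rpow_of_exponent_le hT1 (by linarith)
  have h2pk : 2 * Real.pi * k ≤ D := by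
    rw [hD]
    refine le_trans ?_ e1
    rw [pow_one]
    exact mul_le_mul_of_nonneg_left hk2 (by positivity)
  have hYdef : Yf k T = T / (2 * Real.pi * k) := rfl
  have hTY : T ≤ D * Yf k T := by
    rw [hYdef, mul_div_assoc', le_div_iff₀ (by positivity), mul_comm]
    exact mul_le_mul_of_nonneg_right h2pk hT0.le
  have hYD : T / D ≤ Yf k T := by
    rw [div_le_iff₀ hDpos, mul_comm]
    exact hTY
  have hTD : T / D = T ^ (1 - ε / 16) := by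
    rw [hD, Real.rpow_sub hT0, Real.rpow_one]
  have hY1 : 1 ≤ Yf k T := by
    refine le_trans ?_ hYD
    rw [hTD]
    exact Real.one_le_rpow hT1 (by linarith)
  have hY0 : 0 < Yf k T := by linarith
  have hUD : U * D * X ^ 2 ≤ T := by
    rw [hU, hD, hX2, ← Real.rpow_add hT0, ← Real.rpow_add hT0]
    conv_rhs => rw [← Real.rpow_one T]
    exact Real.rpow_le_rpow_of_exponent_le hT1 (by linarith)
  have hS' : ∀ b ∈ S, 1 ≤ b.1 ∧ 1 ≤ b.2 ∧ Nat.Coprime b.1 b.2 ∧ (b.1 : ℝ) ≤ X ∧ (b.2 : ℝ) ≤ X := by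
    intro b hb
    rw [hX]
    exact hS b hb
  -- the bound of a block
  have hP : C1 * (k : ℝ) ^ A1 * (3 * X ^ 4) ^ (ε / 12) / Yf k T * (8 * X ^ 2) ≤
      T ^ (-(3 / 2 * ε)) := by
    have p1 : C1 * (k : ℝ) ^ A1 ≤ D := by
      rw [hD]
      exact (mul_le_mul_of_nonneg_left (hkA A1) hC1.le).trans e2
    have p2 : (3 * X ^ 4) ^ (ε / 12) ≤ T ^ (ε / 4) := by
      have q1 : 3 * X ^ 4 ≤ T ^ 3 := by
        calc 3 * X ^ 4 = 3 * (X ^ 2 * X ^ 2) := by ring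
          _ ≤ T * (T * T) := by
            apply mul_le_mul (by linarith) _ (by positivity) hT0.le
            exact mul_le_mul hX2T hX2T (by positivity) hT0.le
          _ = T ^ 3 := by ring
      calc (3 * X ^ 4) ^ (ε / 12) ≤ (T ^ 3) ^ (ε / 12) :=
            Real.rpow_le_rpow (by positivity) q1 (by positivity)
        _ = T ^ (ε / 4) := by
            rw [← Real.rpow_natCast, ← Real.rpow_mul hT0.le]
            congr 1
            push_cast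
            ring
    have p3 : 1 / Yf k T ≤ D / T := by
      rw [div_le_div_iff₀ hY0 hT0]
      linarith
    have hp0 : 0 < (3 * X ^ 4) ^ (ε / 12) := Real.rpow_pos_of_pos (by positivity) _
    calc C1 * (k : ℝ) ^ A1 * (3 * X ^ 4) ^ (ε / 12) / Yf k T * (8 * X ^ 2)
        = (C1 * (k : ℝ) ^ A1) * (3 * X ^ 4) ^ (ε / 12) * (1 / Yf k T) * (8 * X ^ 2) := by ring
      _ ≤ D * T ^ (ε / 4) * (D / T) * (T ^ (ε / 8) * X ^ 2) := by
          apply mul_le_mul _ _ (by positivity) (by positivity)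
          · apply mul_le_mul _ p3 (by positivity) (by positivity)
            exact mul_le_mul p1 p2 hp0.le hDpos.le
          · exact mul_le_mul_of_nonneg_right e8 (by positivity)
      _ = T ^ (-(3 / 2 * ε)) := by
          have hTinv : D / T = T ^ (ε / 16 - 1) := by
            rw [hD, Real.rpow_sub hT0, Real.rpow_one]
          rw [hTinv, hX2, hD, ← Real.rpow_add hT0, ← Real.rpow_add hT0, ← Real.rpow_add hT0,
            ← Real.rpow_add hT0]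
          congr 1
          ring
  -- the tail
  have hQ : 2 * C * Zc * (k : ℝ) ^ A * (T ^ 5 * (U ^ (B - 2))⁻¹) ≤ T ^ (-2 : ℝ) := by
    have hz := zc_nonneg
    have q1 : 2 * C * Zc * (k : ℝ) ^ A ≤ T := by
      have := (mul_le_mul_of_nonneg_left (hkA A) (by positivity : 0 ≤ 2 * C * Zc)).trans e3
      rwa [Real.rpow_one] at this
    have q2 : T ^ (8 : ℝ) ≤ U ^ (B - 2) := by
      rw [hU, ← Real.rpow_natCast, ← Real.rpow_mul hT0.le]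
      apply Real.rpow_le_rpow_of_exponent_le hT1
      have : B - 2 = ⌈32 / ε⌉₊ := by omega
      rw [this]
      have h1 := Nat.le_ceil (32 / ε)
      have h2 := mul_le_mul_of_nonneg_left h1 (by positivity : 0 ≤ ε / 4)
      refine le_trans (le_of_eq ?_) h2
      field_simp
      norm_num
    have hT8 : 0 < T ^ (8 : ℝ) := Real.rpow_pos_of_pos hT0 _
    calc 2 * C * Zc * (k : ℝ) ^ A * (T ^ 5 * (U ^ (B - 2))⁻¹)
        ≤ T * (T ^ 5 * (T ^ (8 : ℝ))⁻¹) := by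
          apply mul_le_mul q1 _ (by positivity) hT0.le
          apply mul_le_mul_of_nonneg_left _ (by positivity)
          exact inv_anti₀ hT8 q2
      _ = T ^ (-2 : ℝ) := by
          rw [← Real.rpow_neg hT0.le]
          have e5 : T ^ 5 = T ^ (5 : ℝ) := by
            rw [← Real.rpow_natCast]
            norm_num
          rw [e5]
          have e6 : T * (T ^ (5 : ℝ) * T ^ (-8 : ℝ)) = T ^ (1 : ℝ) * (T ^ (5 : ℝ) * T ^ (-8 : ℝ)) := by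
            rw [Real.rpow_one]
          rw [e6, ← Real.rpow_add hT0, ← Real.rpow_add hT0]
          norm_num
  -- the number of blocks
  obtain ⟨M, hM⟩ : ∃ M : ℕ, M = ⌊2 * Real.log T⌋₊ + 1 := ⟨_, rfl⟩
  have hMb : ∀ n : ℕ, (n : ℝ) ≤ X → Nat.log 2 n < M := by
    intro n hn
    rw [hM]
    rcases Nat.eq_zero_or_pos n with h0 | h0
    · subst h0
      simp
    · apply Nat.lt_succ_of_le
      apply Nat.le_floor
      have h1 : (2:ℝ) ^ Nat.log 2 n ≤ T := by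
        have h2 : 2 ^ Nat.log 2 n ≤ n := Nat.pow_log_le_self 2 (by omega)
        have h3 : ((2:ℝ)) ^ Nat.log 2 n ≤ n := by exact_mod_cast h2
        linarith
      have h2 := Real.log_le_log (by positivity) h1
      rw [Real.log_pow] at h2
      have h3 := Real.log_two_gt_d9
      have h4 : (0:ℝ) ≤ (Nat.log 2 n : ℝ) := Nat.cast_nonneg _
      nlinarith
  have hMle : (M : ℝ) ≤ 3 * Real.log T := by
    rw [hM]
    push_cast
    have := Nat.floor_le (by linarith : 0 ≤ 2 * Real.log T)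
    linarith
  have hcore := core h6 h7a (by omega) hC hK (by positivity : 0 < ε / 12) hC1 k hkB (Yf k T) hY1
    (fun i N J H L hN hJ hH hL a ha => h9' i k (by omega) (Yf k T) hY1 N J H L hN hJ hH hL a ha)
    X T D U hT1 hUpos hDpos hXT hX2T hU1 hTY hUD N hNpos (by rw [hX]; exact hN) a ha S hS'
    (T ^ (-(3 / 2 * ε))) hP (T ^ (-2 : ℝ)) hQ M hMb
  refine hcore.trans ?_
  have hM2 : 12 * (M : ℝ) ^ 2 ≤ T ^ (ε / 2) := by
    refine le_trans ?_ e4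
    rw [pow_one]
    have hM0 : (0:ℝ) ≤ M := Nat.cast_nonneg _
    have := pow_le_pow_left₀ hM0 hMle 2
    nlinarith
  have f1 : T ^ (ε / 2) * T ^ (-(3 / 2 * ε)) = T ^ (-ε) := by
    rw [← Real.rpow_add hT0]
    congr 1
    ring
  have f2 : T * (T ^ (-2 : ℝ)) ^ 2 = T ^ (-3 : ℝ) := by
    rw [← Real.rpow_natCast (T ^ (-2 : ℝ)), ← Real.rpow_mul hT0.le]
    have : T * T ^ (-2 * ((2 : ℕ) : ℝ)) = T ^ (1 : ℝ) * T ^ (-2 * ((2 : ℕ) : ℝ)) := by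
      rw [Real.rpow_one]
    rw [this, ← Real.rpow_add hT0]
    norm_num
  have f3 : 6 * T ^ (-3 : ℝ) ≤ T ^ (-ε) := by
    calc 6 * T ^ (-3 : ℝ) ≤ T * T ^ (-3 : ℝ) :=
          mul_le_mul_of_nonneg_right hT6 (Real.rpow_pos_of_pos hT0 _).le
      _ = T ^ (-2 : ℝ) := by
          have : T * T ^ (-3 : ℝ) = T ^ (1 : ℝ) * T ^ (-3 : ℝ) := by rw [Real.rpow_one]
          rw [this, ← Real.rpow_add hT0]
          norm_num
      _ ≤ T ^ (-ε) := Real.rpow_le_rpow_of_exponent_le hT1 (by linarith)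
  have hPpos : 0 < T ^ (-(3 / 2 * ε)) := Real.rpow_pos_of_pos hT0 _
  have f4 : 12 * (M : ℝ) ^ 2 * T ^ (-(3 / 2 * ε)) ≤ T ^ (-ε) := by
    rw [← f1]
    exact mul_le_mul_of_nonneg_right hM2 hPpos.le
  rw [f2]
  linarith

end

end Pool.Agent.H303R2.EMT10
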