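import Pool.Agent.H326R2.Pi.Stmts

/-! Task T18 of helper326 (irrationality measure of `π`): the numerical value of the saving. -/

namespace Pool.Agent.H303R2.PiT18

open Pool.Agent.H326R2.Pi

theorem sav_eq : sav = ((∑ uv ∈ Lf, ((60 : ℚ) / uv.1 - 60 / uv.2) : ℚ) : ℝ) := by
  rw [sav]
  push_cast
  rfl

theorem t18 : S_sav := by
  have h1 : (0.2926 : ℚ) ≤ ∑ uv ∈ Lf, ((60 : ℚ) / uv.1 - 60 / uv.2) := by
    decide +kernel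
  have h2 : ∑ uv ∈ Lf, ((60 : ℚ) / uv.1 - 60 / uv.2) ≤ 4 := by
    decide +kernel
  have h3 : ((0.2926 : ℚ) : ℝ) ≤ ((∑ uv ∈ Lf, ((60 : ℚ) / uv.1 - 60 / uv.2) : ℚ) : ℝ) := by
    exact_mod_cast h1
  have h4 : ((∑ uv ∈ Lf, ((60 : ℚ) / uv.1 - 60 / uv.2) : ℚ) : ℝ) ≤ ((4 : ℚ) : ℝ) := by
    exact_mod_cast h2
  refine ⟨?_, ?_⟩
  · rw [sav_eq]
    refine le_trans (le_of_eq ?_) h3
    norm_num
  · rw [sav_eq]
    refine le_trans h4 (le_of_eq ?_)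
    norm_num

end Pool.Agent.H303R2.PiT18
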